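import Pool.Agent.W761.CC.Stms

/-!
Elementary properties of the quadratic forms.
-/

set_option autoImplicit false

open MeasureTheory Set Filter
open scoped ENNReal Topology

namespace Pool.Agent.W612.CC

open Pool.Agent.W761.CB Pool.Agent.W761.CC

variable {n : ℕ}

lemma cube_mono {a b : ℝ} (h : a ≤ b) : cube n a ⊆ cube n b := fun _ hz c => (hz c).trans h

lemma cube_meas (r : ℝ) : MeasurableSet (cube n r) := by
  have h : cube n r = ⋂ c : Fin n, {z : Fin n → ℝ | |z c| ≤ r} := by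
    ext z; simp [cube]
  rw [h]
  apply MeasurableSet.iInter
  intro c
  exact (isClosed_le (continuous_abs.comp (continuous_apply c)) continuous_const).measurableSet

lemma el_meas : Measurable (el : (Fin n → ℝ) → ℝ) := by
  unfold el
  apply Continuous.measurable
  fun_prop

lemma dom_meas {D : Set (Fin n → ℝ)} (hD : MeasurableSet D) (e : Fin n → ℝ) :
    MeasurableSet {z | z ∈ D ∧ z + e ∈ D} :=
  hD.inter (hD.preimage (measurable_add_const e))

lemma gr_mono {D D' : Set (Fin n → ℝ)} (h : D ⊆ D') (f : (Fin n → ℝ) → ℝ) : gr D f ≤ gr D' f := by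
  unfold gr
  apply Finset.sum_le_sum
  intro c _
  apply iSup_mono
  intro k
  unfold gk
  gcongr

lemma QD_mono (μ : ℝ) (v : ℝ → ℝ≥0∞) {D D' : Set (Fin n → ℝ)} (h : D ⊆ D')
    (f : (Fin n → ℝ) → ℝ) : QD μ v D f ≤ QD μ v D' f := by
  unfold QD
  have := gr_mono h f
  gcongr

lemma QD_congr (μ : ℝ) (v : ℝ → ℝ≥0∞) {D : Set (Fin n → ℝ)} (hD : MeasurableSet D)
    {f g : (Fin n → ℝ) → ℝ} (h : ∀ z ∈ D, f z = g z) : QD μ v D f = QD μ v D g := by
  have h1 : gr D f = gr D g := by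
    unfold gr
    apply Finset.sum_congr rfl
    intro c _
    congr 1
    funext k
    unfold gk
    congr 1
    apply setLIntegral_congr_fun (dom_meas hD _)
    intro z hz
    simp only
    rw [h _ hz.1, h _ hz.2]
  unfold QD
  rw [h1]
  congr 2
  apply setLIntegral_congr_fun hD
  intro z hz
  simp only
  rw [h _ hz]

lemma QD_smul (μ : ℝ) (v : ℝ → ℝ≥0∞) (D : Set (Fin n → ℝ)) (m : ℝ) (f : (Fin n → ℝ) → ℝ) :
    QD μ v D (fun z => m * f z) = ENNReal.ofReal (m ^ 2) * QD μ v D f := by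
  have hk : ∀ c k, gk D c k (fun z => m * f z) = ENNReal.ofReal (m ^ 2) * gk D c k f := by
    intro c k
    unfold gk
    rw [mul_left_comm, ← lintegral_const_mul' _ _ ENNReal.ofReal_ne_top]
    congr 2
    funext z
    rw [← ENNReal.ofReal_mul (sq_nonneg m)]
    congr 1
    ring
  have h1 : gr D (fun z => m * f z) = ENNReal.ofReal (m ^ 2) * gr D f := by
    unfold gr
    rw [Finset.mul_sum]
    apply Finset.sum_congr rfl
    intro c _
    rw [ENNReal.mul_iSup]
    congr 1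
    funext k
    exact hk c k
  unfold QD
  rw [h1, mul_add, mul_left_comm (ENNReal.ofReal (m ^ 2)) (ENNReal.ofReal μ),
    mul_left_comm (ENNReal.ofReal (m ^ 2)) 2⁻¹, ← lintegral_const_mul' _ _ ENNReal.ofReal_ne_top]
  congr 3
  funext z
  rw [mul_pow, ENNReal.ofReal_mul (sq_nonneg m)]
  ring

lemma BM_comb {f g : (Fin n → ℝ) → ℝ} (hf : BM f) (hg : BM g) (a b : ℝ) :
    BM (fun z => a * f z + b * g z) := by
  obtain ⟨A, hA⟩ := hf.bdd
  obtain ⟨B, hB⟩ := hg.bdd
  refine ⟨(hf.meas.const_mul a).add (hg.meas.const_mul b), |a| * A + |b| * B, fun z => ?_⟩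
  calc |a * f z + b * g z| ≤ |a * f z| + |b * g z| := abs_add_le _ _
    _ = |a| * |f z| + |b| * |g z| := by rw [abs_mul, abs_mul]
    _ ≤ |a| * A + |b| * B := by
        have h1 := mul_le_mul_of_nonneg_left (hA z) (abs_nonneg a)
        have h2 := mul_le_mul_of_nonneg_left (hB z) (abs_nonneg b)
        linarith

lemma BM_smul {f : (Fin n → ℝ) → ℝ} (hf : BM f) (a : ℝ) : BM (fun z => a * f z) := by
  have := BM_comb hf hf a 0
  simpa using this

lemma BM_sub {f g : (Fin n → ℝ) → ℝ} (hf : BM f) (hg : BM g) : BM (fun z => f z - g z) := by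
  have := BM_comb hf hg 1 (-1)
  simpa [sub_eq_add_neg] using this

lemma cutf_eq {r : ℝ} (hr : 0 < r) (u : (Fin n → ℝ) → ℝ) {z : Fin n → ℝ}
    (hz : z ∈ cube n (r / 2)) : cutf r u z = u z := by
  have h1 : ‖z‖ ≤ r / 2 := by
    rw [pi_norm_le_iff_of_nonneg (by linarith)]
    exact fun c => hz c
  have h2 : 1 ≤ 2 - 2 * ‖z‖ / r := by
    have : 2 * ‖z‖ / r ≤ 1 := by
      rw [div_le_one hr]; linarith
    linarith
  unfold cutf
  rw [min_eq_left h2, max_eq_right (by norm_num)]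
  ring

lemma rep {X : ℝ≥0∞} (h : X ≠ ⊤) : ∃ x : ℝ, 0 ≤ x ∧ X = ENNReal.ofReal x :=
  ⟨X.toReal, ENNReal.toReal_nonneg, (ENNReal.ofReal_toReal h).symm⟩

/-- the tail of an integrable potential -/
lemma tail_small {v : ℝ → ℝ≥0∞} (hv : Measurable v) (hfin : ∫⁻ z : Fin n → ℝ, v (el z) ≠ ⊤)
    {δ : ℝ} (hδ : 0 < δ) : ∃ R : ℝ, ∀ r : ℝ, R ≤ r →
      ∫⁻ z in (cube n r)ᶜ, v (el z) ≤ ENNReal.ofReal δ := by
  have hvm : Measurable (fun z : Fin n → ℝ => v (el z)) := hv.comp el_meas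
  have h1 : Tendsto (fun k : ℕ => (volume.withDensity (fun z : Fin n → ℝ => v (el z)))
      ((cube n (k : ℝ))ᶜ)) atTop
      (𝓝 ((volume.withDensity (fun z : Fin n → ℝ => v (el z))) (⋂ k : ℕ, (cube n (k : ℝ))ᶜ))) := by
    apply tendsto_measure_iInter_atTop
    · intro k
      exact (cube_meas _).compl.nullMeasurableSet
    · intro i j hij
      exact compl_subset_compl.2 (cube_mono (by exact_mod_cast hij))
    · refine ⟨0, ?_⟩
      rw [withDensity_apply _ (cube_meas _).compl]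
      exact ne_top_of_le_ne_top hfin (setLIntegral_le_lintegral _ _)
  have h2 : (⋂ k : ℕ, (cube n (k : ℝ))ᶜ) = ∅ := by
    rw [← compl_iUnion, compl_empty_iff, eq_univ_iff_forall]
    intro z
    obtain ⟨k, hk⟩ := exists_nat_ge ‖z‖
    rw [mem_iUnion]
    exact ⟨k, fun c => (norm_le_pi_norm z c).trans hk⟩
  rw [h2, measure_empty] at h1
  have h3 := h1.eventually (gt_mem_nhds (ENNReal.ofReal_pos.2 hδ))
  obtain ⟨k, hk⟩ := h3.exists
  refine ⟨k, fun r hr => ?_⟩
  rw [withDensity_apply _ (cube_meas _).compl] at hk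
  exact (lintegral_mono_set (compl_subset_compl.2 (cube_mono hr))).trans hk.le

end Pool.Agent.W612.CC
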